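import Pool.Agent.H94.KC4

set_option autoImplicit false

open MeasureTheory Set

namespace Pool.Agent.Results.MP_60620c_an.CantorSegments

/-- The triadic Cantor set: sums of `a n / 3 ^ (n + 1)` with all digits `0` or `2`. -/
def cantor : Set ℝ :=
  {x | ∃ a : ℕ → ℕ, (∀ n, a n = 0 ∨ a n = 2) ∧ x = ∑' n, (a n : ℝ) / 3 ^ (n + 1)}

/-- The closed segment of Euclidean length one with midpoint `m` and slope `s`. -/
def seg (m : ℝ × ℝ) (s : ℝ) : Set (ℝ × ℝ) :=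
  {z | ∃ t : ℝ, |t| ≤ 1 / 2 ∧
    z = (m.1 + t * (1 / Real.sqrt (1 + s ^ 2)), m.2 + t * (s / Real.sqrt (1 + s ^ 2)))}

/-- The double of that segment: its image under the dilation of ratio two about the midpoint. -/
def dbl (m : ℝ × ℝ) (s : ℝ) : Set (ℝ × ℝ) := (fun x => m + (2:ℝ) • (x - m)) '' seg m s

theorem result : ∃ S ⊆ cantor, ∃ m : ℝ → ℝ × ℝ,
    volume (⋃ s ∈ S, seg (m s) s) = 0 ∧ 0 < volume (⋃ s ∈ S, dbl (m s) s) ∧
    ∃ P : Set (ℝ × ℝ), MeasurableSet P ∧ 0 < volume P ∧ P ⊆ ⋃ s ∈ S, dbl (m s) s := by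
  open Pool.Agent.H94.KC in
  obtain ⟨P, Z, b, h1, h2, h3, h4, h5⟩ := final
  have inj : Function.Injective fun z => Pool.Agent.H94.KC.sg (b z) :=
    Pool.Agent.H94.KC.sg_inj.comp h4
  obtain ⟨q, hq⟩ := inj.hasLeftInverse
  let m : ℝ → ℝ × ℝ := fun s => ((q s).1 / 8 + 1 / Real.sqrt (1 + s ^ 2),
    (q s).2 / 8 + s / Real.sqrt (1 + s ^ 2))
  have hP : (fun z : ℝ × ℝ => (8:ℝ) • z) ⁻¹' P ⊆
      ⋃ s ∈ (fun z => Pool.Agent.H94.KC.sg (b z)) '' P, dbl (m s) s := by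
    intro z hz
    refine mem_iUnion₂.2 ⟨_, ⟨_, hz, rfl⟩, _, ⟨-1 / 2, by norm_num [abs_le], rfl⟩, ?_⟩
    simp only [m, hq ((8:ℝ) • z)]
    ext <;> simp <;> ring
  have hP0 : 0 < volume ((fun z : ℝ × ℝ => (8:ℝ) • z) ⁻¹' P) := by
    rw [Measure.addHaar_preimage_smul _ (by norm_num)]
    exact ENNReal.mul_pos (ENNReal.ofReal_pos.2 (by positivity)).ne' h2.ne'
  refine ⟨(fun z => Pool.Agent.H94.KC.sg (b z)) '' P, ?_, m, ?_, hP0.trans_le (measure_mono hP),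
    _, (measurable_const_smul (8:ℝ)) h1, hP0, hP⟩
  · rintro _ ⟨z, -, rfl⟩
    refine ⟨fun n => if b z n then 2 else 0, fun n => by beta_reduce; split_ifs <;> simp, ?_⟩
    simp only [Pool.Agent.H94.KC.sg, Pool.Agent.H94.KC.bv]
    congr 1; funext n; split_ifs <;> simp
  · refine measure_mono_null (t := (fun z : ℝ × ℝ => (8:ℝ) • z) ⁻¹' Z) ?_ ?_
    · intro y hy
      obtain ⟨s, ⟨z, hz, rfl⟩, t, ht, rfl⟩ := mem_iUnion₂.1 hy
      have s0 := Pool.Agent.H94.KC.sg_nonneg (b z)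
      have s1 := Pool.Agent.H94.KC.sg_le (b z)
      have e := h5 z hz
      simp only [m, hq z, mem_preimage]
      generalize Pool.Agent.H94.KC.sg (b z) = s at s0 s1 e ⊢
      have r1 : 1 ≤ Real.sqrt (1 + s ^ 2) := Real.one_le_sqrt.2 (by nlinarith)
      have r2 : Real.sqrt (1 + s ^ 2) ≤ 2 := Real.sqrt_le_iff.2 ⟨by norm_num, by nlinarith⟩
      generalize Real.sqrt (1 + s ^ 2) = r at r1 r2 ⊢
      rw [abs_le] at ht
      have := e (8 * (1 + t) / r) ⟨by rw [le_div_iff₀ (by linarith)]; linarith [ht.1],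
        by rw [div_le_iff₀ (by linarith)]; linarith [ht.2]⟩
      convert this using 1
      ext <;> simp <;> ring
    · rw [Measure.addHaar_preimage_smul _ (by norm_num), h3, mul_zero]

end Pool.Agent.Results.MP_60620c_an.CantorSegments
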